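import Pool.Agent.helper88.T8.Spec
import Pool.Agent.helper4.T7.ZFN

set_option autoImplicit false

/-! # Row t8:FN8 (MP_16912e_nt): the clean asymptotic -/

namespace Pool.Agent.T8

open Finset NumberField Pool.Agent.helper3.FT Pool.Agent.helper47.RA Pool.Agent.T5 Pool.Agent.T6 Pool.Agent.T7
open scoped nonZeroDivisors

theorem FN8_TTadd (φ ψ : ∀ D : ℤ, Fld D → ℝ) (N : ℝ) :
    TT7 (fun D E => φ D E + ψ D E) N = TT7 φ N + TT7 ψ N := by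
  unfold TT7
  rw [← Finset.sum_add_distrib]
  exact Finset.sum_congr rfl fun D _ => ZFN_SFadd φ ψ D

theorem FN8_sets (A Y : ℝ) : (∀ D E, fS A Y D E ≤ fC Y D E) ∧ (∀ D E, fC Y D E ≤ fS A Y D E + fE8 A Y D E) ∧
    (∀ D E, fE8 A Y D E ≤ fC Y D E) := by
  refine ⟨(ZFN_sets A Y).2.2, fun D E => ?_, fun D E => ?_⟩
  · unfold fC fS fE8
    have h1 : CLS E.K Y ⊆ SP7 E.K A Y ∪ NE8 E.K A Y := by
      intro c hc
      by_cases h : A * (mu c : ℝ) < (mu (c ^ 2) : ℝ) ∨ A * (mu (c ^ 2) : ℝ) < (mu c : ℝ)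
      · exact Or.inl ⟨hc, h⟩
      · rw [not_or, not_lt, not_lt] at h
        exact Or.inr ⟨hc, h.1, h.2⟩
    have : (CLS E.K Y).ncard ≤ (SP7 E.K A Y).ncard + (NE8 E.K A Y).ncard :=
      (Set.ncard_le_ncard h1 (Set.toFinite _)).trans (Set.ncard_union_le _ _)
    exact_mod_cast this
  · unfold fE8 fC
    have : (NE8 E.K A Y).ncard ≤ (CLS E.K Y).ncard :=
      Set.ncard_le_ncard (fun c hc => hc.1) (Set.toFinite _)
    exact_mod_cast this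

theorem FN8 (h1 : ZDY_stmt) (h2 : ZFN_stmt) (h3 : NR8_stmt) (h4 : ZTT_stmt) : FN8_stmt := by
  intro ε hε
  obtain ⟨A, hA, H2⟩ := h2 (ε / 2) (by positivity)
  obtain ⟨κ₁, N₁, hκ₁, K2⟩ := H2 A le_rfl
  obtain ⟨κ₂, N₂, hκ₂, K3⟩ := h3 (ε / 16) A (by positivity) hA
  obtain ⟨C, N₃, hC, K4⟩ := h4
  have hr0 : (0 : ℝ) < 1 / √2 := by positivity
  have hr1 : (1 : ℝ) / √2 < 1 := by
    rw [div_lt_one (by positivity)]
    exact Real.lt_sqrt_of_sq_lt (by norm_num)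
  obtain ⟨i₀, hi₀⟩ := exists_pow_lt_of_lt_one (show (0 : ℝ) < ε / (4 * C) by positivity) hr1
  have hi₁ : C * (1 / √2) ^ i₀ ≤ ε / 4 := by
    have h5 : C * (1 / √2) ^ i₀ ≤ C * (ε / (4 * C)) :=
      mul_le_mul_of_nonneg_left hi₀.le (by linarith)
    refine h5.trans (le_of_eq ?_)
    field_simp
  refine ⟨min κ₁ (min κ₂ 1 * (1 / √2) ^ i₀), max |N₁| (2 ^ i₀ * (|N₂| + |N₃| + 1)), by positivity, ?_⟩
  intro N Y hN' hY hY2
  have hN1 : N₁ ≤ N := (le_abs_self _).trans ((le_max_left _ _).trans hN')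
  have hN : 2 ^ i₀ * (|N₂| + |N₃| + 1) ≤ N := (le_max_right _ _).trans hN'
  have h2i : (1 : ℝ) ≤ 2 ^ i₀ := one_le_pow₀ (by norm_num)
  have hNb : |N₂| + |N₃| + 1 ≤ N / 2 ^ i₀ := by
    rw [le_div_iff₀ (by positivity)]
    linarith
  have ha2 := abs_nonneg N₂
  have ha3 := abs_nonneg N₃
  have hb2 := le_abs_self N₂
  have hb3 := le_abs_self N₃
  have hN0 : 0 < N := by
    have : 0 < N / 2 ^ i₀ := by linarith
    by_contra hcon
    have : N / 2 ^ i₀ ≤ 0 := div_nonpos_of_nonpos_of_nonneg (not_lt.mp hcon) (by positivity)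
    linarith
  have hY0 : 0 ≤ Y := (Real.rpow_nonneg hN0.le _).trans hY
  have hs0 : 0 ≤ √N := Real.sqrt_nonneg _
  have hYa : Y ≤ κ₁ * √N := hY2.trans (mul_le_mul_of_nonneg_right (min_le_left _ _) hs0)
  have hYb : Y ≤ min κ₂ 1 * (1 / √2) ^ i₀ * √N := hY2.trans (mul_le_mul_of_nonneg_right (min_le_right _ _) hs0)
  -- the position of N / 2 ^ i
  have hpos : ∀ i : ℕ, i ≤ i₀ → |N₂| + |N₃| + 1 ≤ N / 2 ^ i ∧ (N / 2 ^ i) ^ (2 / 5 : ℝ) ≤ Y ∧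
      Y ≤ κ₂ * √(N / 2 ^ i) ∧ Y ≤ √(N / 2 ^ i) := by
    intro i hi
    have hpow : (2 : ℝ) ^ i ≤ 2 ^ i₀ := pow_le_pow_right₀ (by norm_num) hi
    have e1 : N / 2 ^ i₀ ≤ N / 2 ^ i := div_le_div_of_nonneg_left hN0.le (by positivity) hpow
    have e2 : N / 2 ^ i ≤ N := div_le_self hN0.le (one_le_pow₀ (by norm_num))
    have e3 : (N / 2 ^ i) ^ (2 / 5 : ℝ) ≤ N ^ (2 / 5 : ℝ) := Real.rpow_le_rpow (by positivity) e2 (by norm_num)
    have e4 : (1 / √2) ^ i₀ ≤ (1 / √2) ^ i := pow_le_pow_of_le_one hr0.le hr1.le hi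
    have e5 : Y ≤ min κ₂ 1 * √(N / 2 ^ i) := by
      rw [ZFN_sqrt N hN0.le i]
      calc Y ≤ min κ₂ 1 * (1 / √2) ^ i₀ * √N := hYb
        _ ≤ min κ₂ 1 * (1 / √2) ^ i * √N := by gcongr
        _ = _ := by ring
    refine ⟨hNb.trans e1, e3.trans hY, e5.trans ?_, e5.trans ?_⟩
    · exact mul_le_mul_of_nonneg_right (min_le_left _ _) (Real.sqrt_nonneg _)
    · calc min κ₂ 1 * √(N / 2 ^ i) ≤ 1 * √(N / 2 ^ i) :=
            mul_le_mul_of_nonneg_right (min_le_right _ _) (Real.sqrt_nonneg _)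
        _ = _ := one_mul _
  obtain ⟨V, hV⟩ : ∃ V : ℝ, V = Y * √N := ⟨_, rfl⟩
  have hV0 : 0 ≤ V := by rw [hV]; positivity
  obtain ⟨s1, s2, s3⟩ := FN8_sets A Y
  have hslice : ∀ i : ℕ, i ∈ range i₀ → TD7 (fE8 A Y) (N / 2 ^ i) ≤ ε / 16 * ((1 / √2) ^ i * V) := by
    intro i hi
    obtain ⟨p1, p2, p3, p4⟩ := hpos i (Finset.mem_range.mp hi).le
    have q1 := K3 (N / 2 ^ i) Y (by linarith) p2 p3
    have e1 : Y * √(N / 2 ^ i) = (1 / √2) ^ i * V := by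
      rw [ZFN_sqrt N hN0.le i, hV]; ring
    rw [e1] at q1
    exact q1
  have hnn : ∀ D E, 0 ≤ fE8 A Y D E := fun D E => by unfold fE8; positivity
  have hdec := (h1 (fE8 A Y) hnn).2 N hN0 i₀
  have hR1 : TT7 (fE8 A Y) (N / 2 ^ i₀) ≤ C * ((1 / √2) ^ i₀ * V) := by
    obtain ⟨p1, p2, p3, p4⟩ := hpos i₀ le_rfl
    have q := K4 (N / 2 ^ i₀) Y (by linarith) p2 p4
    have e1 : Y * √(N / 2 ^ i₀) = (1 / √2) ^ i₀ * V := by
      rw [ZFN_sqrt N hN0.le i₀, hV]; ring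
    rw [e1] at q
    exact (ZFN_TTle s3 _).trans q
  obtain ⟨g1, g2⟩ := ZFN_sum i₀
  have hS : ∑ i ∈ range i₀, TD7 (fE8 A Y) (N / 2 ^ i) ≤ ε / 16 * (4 * V) := by
    refine (Finset.sum_le_sum hslice).trans ?_
    rw [← Finset.mul_sum, ← Finset.sum_mul]
    have : (∑ i ∈ range i₀, ((1 : ℝ) / √2) ^ i) * V ≤ 4 * V := mul_le_mul_of_nonneg_right g1 hV0
    exact mul_le_mul_of_nonneg_left this (by positivity)
  have hE : TT7 (fE8 A Y) N ≤ ε / 2 * V := by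
    rw [hdec]
    have hx2 : C * ((1 / √2) ^ i₀ * V) ≤ ε / 4 * V := by
      calc C * ((1 / √2) ^ i₀ * V) = (C * (1 / √2) ^ i₀) * V := by ring
        _ ≤ _ := mul_le_mul_of_nonneg_right hi₁ hV0
    linarith
  have hC1 : TT7 (fS A Y) N ≤ TT7 (fC Y) N := ZFN_TTle s1 N
  have hC2 : TT7 (fC Y) N ≤ TT7 (fS A Y) N + TT7 (fE8 A Y) N := by
    rw [← FN8_TTadd]
    exact ZFN_TTle s2 N
  have hm := K2 N Y hN1 hY hYa
  rw [← hV] at hm ⊢
  rw [abs_le] at hm ⊢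
  have hεV : 0 ≤ ε * V := by positivity
  constructor
  · linarith [hm.1]
  · linarith [hm.2]

end Pool.Agent.T8
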